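import Pool.Agent.Helper69.UX.StD

/-!
MODULE NIQ of project UX (helper69): the bound for `Ps`.
-/

set_option autoImplicit false

namespace Pool.Agent.Helper78.UX

open Finset Filter Pool.Agent.Helper82.CN Pool.Agent.Helper11.PV Pool.Agent.Helper69.VX
  Pool.Agent.Helper69.UX

theorem term_nonneg (L y : ℝ) (i d : ℕ) (hy : 0 < y) :
    0 ≤ (y * Real.exp (L * i)) ^ d * Real.exp (-(L * (d * (d - 1)) / 2)) := by
  positivity

theorem one_le_Ps (L y : ℝ) (T i : ℕ) (hy : 0 < y) : 1 ≤ Ps L y T i := by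
  unfold Ps
  have : 0 ≤ ∑ d ∈ Icc 1 (T + 1),
      (y * Real.exp (L * i)) ^ d * Real.exp (-(L * (d * (d - 1)) / 2)) :=
    Finset.sum_nonneg fun d _ => term_nonneg L y i d hy
  linarith

/-- a finite piece of the geometric series -/
theorem geo_le (r : ℝ) (h0 : 0 ≤ r) (h1 : r < 1) (s : Finset ℕ) :
    ∑ d ∈ s, r ^ d ≤ (1 - r)⁻¹ := by
  rw [← tsum_geometric_of_lt_one h0 h1]
  exact (summable_geometric_of_lt_one h0 h1).sum_le_tsum s (fun d _ => pow_nonneg h0 d)

theorem quarter_sum (T : ℕ) : ∑ d ∈ Icc 1 (T + 1), ((1 : ℝ) / 4) ^ d ≤ 1 / 3 := by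
  have h := geo_le ((1 : ℝ) / 4) (by norm_num) (by norm_num) (insert 0 (Icc 1 (T + 1)))
  rw [Finset.sum_insert (by simp)] at h
  norm_num at h ⊢
  linarith

theorem hNIQ : StNIQ := by
  intro L hL _
  set r : ℝ := Real.exp (-(L / 4)) with hr
  have hr0 : 0 ≤ r := (Real.exp_pos _).le
  have hr1 : r < 1 := by
    rw [hr, Real.exp_lt_one_iff]
    linarith
  set S : ℝ := (1 - r)⁻¹ with hS
  have hS0 : 0 < S := by
    rw [hS]
    have : 0 < 1 - r := by linarith
    positivity
  refine ⟨1 + 2 * S + L / 2 + 4 * L + 4 / L, ?_, ?_⟩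
  · have : 0 < 4 / L := by positivity
    linarith
  intro y T i hy
  have hPs1 := one_le_Ps L y T i hy
  have hPs0 : 0 < Ps L y T i := by linarith
  refine ⟨Real.log_nonneg hPs1, ?_, ?_⟩
  · intro hx
    set x : ℝ := y * Real.exp (L * i) with hxdef
    have hx0 : 0 < x := by positivity
    have hsum : ∑ d ∈ Icc 1 (T + 1), x ^ d * Real.exp (-(L * (d * (d - 1)) / 2)) ≤
        ∑ d ∈ Icc 1 (T + 1), (4 * x) * ((1 : ℝ) / 4) ^ d := by
      refine Finset.sum_le_sum fun d hd => ?_
      rw [Finset.mem_Icc] at hd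
      have hd1 : (1 : ℝ) ≤ d := by exact_mod_cast hd.1
      have he : Real.exp (-(L * (d * (d - 1)) / 2)) ≤ 1 := by
        rw [Real.exp_le_one_iff]
        have : 0 ≤ L * (d * ((d : ℝ) - 1)) := by
          apply mul_nonneg hL.le
          apply mul_nonneg (by linarith) (by linarith)
        linarith
      have h1 : x ^ d * Real.exp (-(L * (d * (d - 1)) / 2)) ≤ x ^ d := by
        have := mul_le_mul_of_nonneg_left he (pow_nonneg hx0.le d)
        linarith
      refine h1.trans ?_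
      obtain ⟨e, rfl⟩ : ∃ e, d = e + 1 := ⟨d - 1, by omega⟩
      have h2 : x ^ e ≤ ((1 : ℝ) / 4) ^ e := pow_le_pow_left₀ hx0.le hx e
      have h3 : x ^ (e + 1) = x * x ^ e := by ring
      have h4 : 4 * x * ((1 : ℝ) / 4) ^ (e + 1) = x * ((1 : ℝ) / 4) ^ e := by
        rw [pow_succ]; ring
      rw [h3, h4]
      exact mul_le_mul_of_nonneg_left h2 hx0.le
    rw [← Finset.mul_sum] at hsum
    have hq := quarter_sum T
    have h5 : 4 * x * ∑ d ∈ Icc 1 (T + 1), ((1 : ℝ) / 4) ^ d ≤ 4 * x * (1 / 3) :=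
      mul_le_mul_of_nonneg_left hq (by positivity)
    have hP : Ps L y T i ≤ 1 + 3 * x := by
      unfold Ps
      rw [← hxdef]
      linarith
    calc Real.log (Ps L y T i) ≤ Ps L y T i - 1 := Real.log_le_sub_one_of_pos hPs0
      _ ≤ 3 * x := by linarith
  · set x : ℝ := y * Real.exp (L * i) with hxdef
    have hx0 : 0 < x := by positivity
    set m : ℝ := max (Real.log y) 0 with hm
    have hm0 : 0 ≤ m := le_max_right _ _
    set l : ℝ := L * i + m with hl
    have hi0 : (0 : ℝ) ≤ i := Nat.cast_nonneg i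
    have hl0 : 0 ≤ l := by positivity
    have hxl : x ≤ Real.exp l := by
      rw [hl, Real.exp_add, hxdef, mul_comm]
      apply mul_le_mul_of_nonneg_left _ (Real.exp_pos _).le
      calc y = Real.exp (Real.log y) := (Real.exp_log hy).symm
        _ ≤ Real.exp m := Real.exp_le_exp.mpr (le_max_left _ _)
    set Q : ℝ := (l + L / 2) ^ 2 / L with hQ
    have hQ0 : 0 ≤ Q := by positivity
    have hterm : ∀ d ∈ Icc 1 (T + 1), x ^ d * Real.exp (-(L * (d * (d - 1)) / 2)) ≤
        Real.exp Q * r ^ d := by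
      intro d hd
      rw [Finset.mem_Icc] at hd
      have hd1 : (1 : ℝ) ≤ d := by exact_mod_cast hd.1
      have h1 : x ^ d ≤ Real.exp (d * l) := by
        rw [Real.exp_nat_mul]
        exact pow_le_pow_left₀ hx0.le hxl d
      have h2 : x ^ d * Real.exp (-(L * (d * (d - 1)) / 2)) ≤
          Real.exp (d * l) * Real.exp (-(L * (d * (d - 1)) / 2)) :=
        mul_le_mul_of_nonneg_right h1 (Real.exp_pos _).le
      refine h2.trans ?_
      rw [← Real.exp_add, hr, ← Real.exp_nat_mul, ← Real.exp_add]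
      apply Real.exp_le_exp.mpr
      -- `d l - L d (d - 1) / 2 ≤ (l + L/2)^2 / L - d L / 4`
      have h3 : (d : ℝ) * (l + L / 2) - L / 4 * d ^ 2 ≤ Q := by
        rw [hQ, le_div_iff₀ hL]
        nlinarith [sq_nonneg ((l + L / 2) - L / 2 * d)]
      have h4 : L / 4 * (d : ℝ) ≤ L / 4 * (d : ℝ) ^ 2 := by
        apply mul_le_mul_of_nonneg_left _ (by positivity)
        nlinarith
      nlinarith
    have hsum : ∑ d ∈ Icc 1 (T + 1), x ^ d * Real.exp (-(L * (d * (d - 1)) / 2)) ≤
        Real.exp Q * S := by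
      refine (Finset.sum_le_sum hterm).trans ?_
      rw [← Finset.mul_sum]
      exact mul_le_mul_of_nonneg_left (geo_le r hr0 hr1 _) (Real.exp_pos _).le
    have hP : Ps L y T i ≤ Real.exp Q * (1 + 2 * S) := by
      unfold Ps
      rw [← hxdef]
      have h1 : 1 ≤ Real.exp Q := Real.one_le_exp hQ0
      nlinarith
    have hlog : Real.log (Ps L y T i) ≤ Q + 2 * S := by
      calc Real.log (Ps L y T i) ≤ Real.log (Real.exp Q * (1 + 2 * S)) :=
            Real.log_le_log hPs0 hP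
        _ = Q + Real.log (1 + 2 * S) := by
            rw [Real.log_mul (Real.exp_pos _).ne' (by positivity), Real.log_exp]
        _ ≤ Q + 2 * S := by
            have := Real.log_le_sub_one_of_pos (show 0 < 1 + 2 * S by positivity)
            linarith
    refine hlog.trans ?_
    -- `Q ≤ L / 2 + 4 L i^2 + 4 m^2 / L`
    have hQ1 : Q ≤ L / 2 + 4 * L * (i : ℝ) ^ 2 + 4 / L * m ^ 2 := by
      rw [hQ, div_le_iff₀ hL]
      have h1 : 4 / L * m ^ 2 * L = 4 * m ^ 2 := by field_simp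
      have h2 : (L / 2 + 4 * L * (i : ℝ) ^ 2 + 4 / L * m ^ 2) * L =
          L ^ 2 / 2 + 4 * (L * i) ^ 2 + 4 * m ^ 2 := by
        rw [add_mul, h1]; ring
      rw [h2, hl]
      nlinarith [sq_nonneg (L * i + m - L / 2), sq_nonneg (L * i - m)]
    have h6 : 0 < 4 / L := by positivity
    have h7 : 0 ≤ (i : ℝ) ^ 2 := sq_nonneg _
    have h8 : 0 ≤ m ^ 2 := sq_nonneg _
    have h9 : 0 ≤ (1 + 2 * S + L / 2 + 4 / L) * (i : ℝ) ^ 2 := by positivity
    have h10 : 0 ≤ (1 + 2 * S + L / 2 + 4 * L) * m ^ 2 := by positivity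
    nlinarith

end Pool.Agent.Helper78.UX
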